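import Pool.Agent.MP_18a942_nt.Main

set_option autoImplicit false

namespace Pool.Agent.Results.MP_18a942_nt.Density

theorem result : ∃ c : ℝ, 0 < c ∧ ∃ x₀ : ℕ, ∀ x : ℕ, x₀ ≤ x → ∀ e : ℕ, e < 2 →
    c * x / Real.log (Real.log (Real.log (Real.log x))) ≤
      (Set.ncard {n : ℕ | 2 < n ∧ n ≤ x ∧ n % 2 = e ∧ ∃ p q r : ℕ, p.Prime ∧ p ≤ n ∧
        q.Prime ∧ (q : ℤ) = 2 * (Nat.primeCounting p : ℤ) - (-1) ^ n ∧
        r.Prime ∧ (r : ℤ) = p * n + ((-1) ^ n - 3) / 2} : ℝ) := by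
  obtain ⟨c, c0, hc⟩ := Pool.Agent.MP_18a942_nt.density
  obtain ⟨x₀, hx⟩ := Filter.eventually_atTop.1 hc
  refine ⟨c, c0, x₀, fun x h e he => ?_⟩
  obtain ⟨G, h1, h2⟩ := hx x h (e + 1) (by omega)
  refine h1.trans (Nat.cast_le.mpr ?_)
  rw [← Set.ncard_coe_finset]
  refine Set.ncard_le_ncard (fun n hn => ?_) ((Set.finite_Iic x).subset fun n hn => hn.2.1)
  obtain ⟨h3, p, h4, h5, h6, h7, h8, h9⟩ := h2 n (Finset.mem_coe.mp hn)
  have h10 : p.primeCounting ≠ 0 := fun h0 => by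
    have := Nat.primeCounting_eq_zero_iff.mp h0
    omega
  have h11 := h4.eq_two_or_odd
  have h12 := h8.eq_two_or_odd
  have h13 : p * n % 2 = n % 2 := by
    rw [Nat.mul_mod, show p % 2 = 1 by omega, one_mul, Nat.mod_mod]
  have h14 : n % 2 = e := by omega
  refine ⟨by omega, h3, h14, p, _, _, h4, h6, h7, ?_, h8, ?_⟩
  · rcases (show e = 0 ∨ e = 1 by omega) with rfl | rfl
    · rw [(Nat.even_iff.mpr h14).neg_one_pow]; omega
    · rw [(Nat.odd_iff.mpr h14).neg_one_pow]; omega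
  · rw [← Nat.cast_mul]
    rcases (show e = 0 ∨ e = 1 by omega) with rfl | rfl
    · rw [(Nat.even_iff.mpr h14).neg_one_pow]; omega
    · rw [(Nat.odd_iff.mpr h14).neg_one_pow]; omega

end Pool.Agent.Results.MP_18a942_nt.Density
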